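import Pool.Agent.helper90.IV.Spec
import Pool.Agent.helper21.KS.GR

/-!
# MP_26dbae_co: row iv:FNY (completion of the hub tuples to a rainbow copy, greedily)
-/

set_option autoImplicit false

open scoped BigOperators

namespace Pool.Agent.helper42.IV

open Pool.Agent.helper23.TH Pool.Agent.KS Pool.Agent.IV

noncomputable section

open Classical

theorem FNY_cover {V τ : Type} [Fintype τ] (S : Finset V) (P : τ → V → Prop)
    (hcov : ∀ v ∈ S, ∃ t, P t v) (hone : ∀ t, ∀ v ∈ S, ∀ v' ∈ S, P t v → P t v' → v = v') :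
    S.card ≤ Fintype.card τ := by
  choose f hf using fun v : {v // v ∈ S} => hcov v.1 v.2
  have hinj : Function.Injective f := by
    intro a b hab
    apply Subtype.ext
    exact hone (f a) a.1 a.2 b.1 b.2 (hf a) (by rw [hab]; exact hf b)
  have := Fintype.card_le_of_injective f hinj
  simpa using this

abbrev NHt (h : ℕ) (pj : Fin (h + 1) → ℕ) : Type := Fin h ⊕ (Σ j : Fin (h + 1), Fin (pj j))

/-- the connector or child of an edge -/
def own {s h : ℕ} {pj : Fin (h + 1) → ℕ} : (cat s h pj).Ed → Option (NHt h pj)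
  | .inl ⟨(.inl _, .inl _), _⟩ => none
  | .inl ⟨(.inl _, .inr u), _⟩ => some u
  | .inl ⟨(.inr u, _), _⟩ => some u
  | .inr ⟨.inl _, _⟩ => none
  | .inr ⟨.inr u, _⟩ => some u

/-- the other end of an edge with a connector or child -/
def fx {V : Type} {s h : ℕ} {pj : Fin (h + 1) → ℕ} (xh : Fin (h + 1) → V) (y : (cat s h pj).R → V) :
    (cat s h pj).Ed → V
  | .inl ⟨(.inl i, _), _⟩ => xh i
  | .inl ⟨(.inr _, .inl i), _⟩ => xh i
  | .inl ⟨(.inr _, .inr _), _⟩ => xh 0
  | .inr r => y r

theorem par_hub {s h : ℕ} {pj : Fin (h + 1) → ℕ} {i : Fin (h + 1)} {b : CI h pj}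
    (hb : (cat s h pj).par (.inl i) = some b) : ∃ j : Fin h, i = j.succ ∧ b = .inr (.inl j) := by
  induction i using Fin.cases with
  | zero => simp [cat] at hb
  | succ j =>
    refine ⟨j, rfl, ?_⟩
    simp [cat] at hb
    exact hb.symm

theorem par_con {s h : ℕ} {pj : Fin (h + 1) → ℕ} {j : Fin h} {b : CI h pj}
    (hb : (cat s h pj).par (.inr (.inl j)) = some b) : b = .inl j.castSucc := by
  simp [cat] at hb
  exact hb.symm

theorem par_chi {s h : ℕ} {pj : Fin (h + 1) → ℕ} {c : Σ j : Fin (h + 1), Fin (pj j)} {b : CI h pj}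
    (hb : (cat s h pj).par (.inr (.inr c)) = some b) : b = .inl c.1 := by
  simp [cat] at hb
  exact hb.symm

theorem own_none {s h : ℕ} {pj : Fin (h + 1) → ℕ} (e : (cat s h pj).Ed) (he : own e = none) :
    ∃ (i : Fin (h + 1)) (k : Fin (s - 2)), e = .inr ⟨.inl i, k⟩ := by
  rcases e with ⟨⟨a, b⟩, hab⟩ | ⟨a, k⟩
  · rcases a with i | u
    · rcases b with i' | u'
      · obtain ⟨j, _, hj⟩ := par_hub hab
        simp at hj
      · simp [own] at he
    · simp [own] at he
  · rcases a with i | u
    · exact ⟨i, k, rfl⟩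
    · simp [own] at he

/-- the edges of a connector or child -/
theorem own_some {s h : ℕ} {pj : Fin (h + 1) → ℕ} (e : (cat s h pj).Ed) (u : NHt h pj)
    (he : own e = some u) :
    (∃ (j : Fin h) (h1 : (cat s h pj).par (.inl j.succ) = some (.inr (.inl j))), u = .inl j ∧
      e = .inl ⟨(.inl j.succ, .inr (.inl j)), h1⟩) ∨
    (∃ (j : Fin h) (h1 : (cat s h pj).par (.inr (.inl j)) = some (.inl j.castSucc)), u = .inl j ∧
      e = .inl ⟨(.inr (.inl j), .inl j.castSucc), h1⟩) ∨
    (∃ (c : Σ j : Fin (h + 1), Fin (pj j)) (h1 : (cat s h pj).par (.inr (.inr c)) = some (.inl c.1)),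
      u = .inr c ∧ e = .inl ⟨(.inr (.inr c), .inl c.1), h1⟩) ∨
    ∃ k, e = .inr ⟨.inr u, k⟩ := by
  rcases e with ⟨⟨a, b⟩, hab⟩ | ⟨a, k⟩
  · rcases a with i | u'
    · rcases b with i' | u''
      · simp [own] at he
      · simp [own] at he
        obtain ⟨j, hj1, hj2⟩ := par_hub hab
        left
        subst hj1
        have h3 : u'' = .inl j := by simpa using hj2
        subst h3
        exact ⟨j, hab, he.symm, rfl⟩
    · have h2 : u' = u := by simpa [own] using he
      subst h2
      rcases u' with j | c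
      · have h3 := par_con hab
        subst h3
        right; left
        exact ⟨j, hab, rfl, rfl⟩
      · have h3 := par_chi hab
        subst h3
        right; right; left
        exact ⟨c, hab, rfl, rfl⟩
  · rcases a with i | u'
    · simp [own] at he
    · have h2 : u' = u := by simpa [own] using he
      subst h2
      right; right; right
      exact ⟨k, rfl⟩

theorem fx_inj {V : Type} {s h : ℕ} {pj : Fin (h + 1) → ℕ} (xh : Fin (h + 1) → V) (y : (cat s h pj).R → V)
    (hx : Function.Injective xh) (hy : Function.Injective y) (hxy : ∀ i r, xh i ≠ y r)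
    (e e' : (cat s h pj).Ed) (u : NHt h pj) (he : own e = some u) (he' : own e' = some u)
    (hf : fx xh y e = fx xh y e') : e = e' := by
  rcases own_some e u he with ⟨j, h1, hu, rfl⟩ | ⟨j, h1, hu, rfl⟩ | ⟨c, h1, hu, rfl⟩ | ⟨k, rfl⟩ <;>
  rcases own_some e' u he' with ⟨j', h1', hu', rfl⟩ | ⟨j', h1', hu', rfl⟩ | ⟨c', h1', hu', rfl⟩ | ⟨k', rfl⟩
  · have h3 : j = j' := by
      rw [hu] at hu'
      exact Sum.inl_injective hu'
    subst h3
    rfl
  · exfalso
    have h3 : j = j' := by
      rw [hu] at hu'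
      exact Sum.inl_injective hu'
    subst h3
    have h4 := hx hf
    exact absurd h4 (Fin.castSucc_lt_succ).ne'
  · exfalso
    rw [hu] at hu'
    exact absurd hu' (by simp)
  · exact absurd hf (hxy _ _)
  · exfalso
    have h3 : j = j' := by
      rw [hu] at hu'
      exact Sum.inl_injective hu'
    subst h3
    have h4 := hx hf
    exact absurd h4 (Fin.castSucc_lt_succ).ne
  · have h3 : j = j' := by
      rw [hu] at hu'
      exact Sum.inl_injective hu'
    subst h3
    rfl
  · exfalso
    rw [hu] at hu'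
    exact absurd hu' (by simp)
  · exact absurd hf (hxy _ _)
  · exfalso
    rw [hu] at hu'
    exact absurd hu' (by simp)
  · exfalso
    rw [hu] at hu'
    exact absurd hu' (by simp)
  · have h3 : c = c' := by
      rw [hu] at hu'
      exact Sum.inr_injective hu'
    subst h3
    rfl
  · exact absurd hf (hxy _ _)
  · exact absurd hf.symm (hxy _ _)
  · exact absurd hf.symm (hxy _ _)
  · exact absurd hf.symm (hxy _ _)
  · have h3 := hy hf
    rw [h3]

/-- the candidates contain the set of `cnc` -/
theorem cnc_le {V : Type} [Fintype V] (A : V → V → Prop) {s h : ℕ} {pj : Fin (h + 1) → ℕ}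
    (xh : Fin (h + 1) → V) (y : (cat s h pj).R → V) (u : NHt h pj) :
    cnc A s xh y u ≤ (Finset.univ.filter fun v => ∀ e, own e = some u → A v (fx xh y e)).card := by
  rcases u with j | c
  · unfold cnc
    apply Finset.card_le_card
    intro v hv
    simp only [Finset.mem_filter, Finset.mem_univ, true_and] at hv ⊢
    intro e he
    rcases own_some e _ he with ⟨j', h1, hu, rfl⟩ | ⟨j', h1, hu, rfl⟩ | ⟨c, h1, hu, rfl⟩ | ⟨k, rfl⟩
    · have h3 : j = j' := Sum.inl_injective hu
      subst h3
      exact hv.2.1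
    · have h3 : j = j' := Sum.inl_injective hu
      subst h3
      exact hv.1
    · exact absurd hu (by simp)
    · exact hv.2.2 k
  · unfold cnc
    apply Finset.card_le_card
    intro v hv
    simp only [Finset.mem_filter, Finset.mem_univ, true_and] at hv ⊢
    intro e he
    rcases own_some e _ he with ⟨j', h1, hu, rfl⟩ | ⟨j', h1, hu, rfl⟩ | ⟨c', h1, hu, rfl⟩ | ⟨k, rfl⟩
    · exact absurd hu (by simp)
    · exact absurd hu (by simp)
    · have h3 : c = c' := Sum.inr_injective hu
      subst h3
      exact hv.1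
    · exact hv.2 k

abbrev Ta (s h : ℕ) (pj : Fin (h + 1) → ℕ) (q : ℕ) : Type := (Fin q × Fin (h + 1)) ⊕ ((cat s h pj).R ⊕
    (Fin 2 × (cat s h pj).Ed × Fin q × (Σ _ : Fin (h + 1), Fin (s - 2))))

abbrev Tb (s h : ℕ) (pj : Fin (h + 1) → ℕ) : Type := Fin 1 ⊕ (Fin 2 × (cat s h pj).Ed × (cat s h pj).Ed)

instance tbF (s h : ℕ) (pj : Fin (h + 1) → ℕ) : Fintype (Tb s h pj) := by
  haveI h3 : Fintype (cat s h pj).Ed := inferInstance
  exact inferInstance

abbrev Ti (h : ℕ) (pj : Fin (h + 1) → ℕ) (q : ℕ) : Type := Fin q × NHt h pj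

theorem FNY_aux (hGR : GR_stmt) : FNY_stmt := by
  intro s h pj q hs
  refine ⟨Fintype.card (Ta s h pj q) + Fintype.card (Tb s h pj) * Fintype.card (Ti h pj q) + 1, ?_⟩
  intro Ch hCh V K _ A lam y X hPr hy hAX hcn hXi hXy hXc
  let C : Ti h pj q → Finset V := fun p => Finset.univ.filter fun v => ∀ e, own e = some p.2 → A v (fx (X p.1) y e)
  let G : Ti h pj q → V → Prop := fun p v => (∀ j i, v ≠ X j i) ∧ (∀ r, v ≠ y r) ∧
    ∀ (l : Fin 2) e j' i' (k' : Fin (s - 2)), own e = some p.2 →
      lam l v (fx (X p.1) y e) ≠ lam l (X j' i') (y ⟨.inl i', k'⟩)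
  have hCmem : ∀ p v, v ∈ C p → ∀ e, own e = some p.2 → A v (fx (X p.1) y e) := by
    intro p v hv
    simpa [C] using hv
  have hdet : ∀ (l : Fin 2) (w v v' : V), A v w → A v' w → lam l v w = lam l v' w → v = v' := by
    intro l w v v' hv hv' he
    apply hPr.prop l w v v' (hPr.symm _ _ hv) (hPr.symm _ _ hv')
    rw [hPr.csymm l w v (hPr.symm _ _ hv), hPr.csymm l w v' (hPr.symm _ _ hv')]
    exact he
  have hCcard : ∀ p, Ch ≤ (C p).card := by
    intro p
    exact (hcn p.1 p.2).trans (cnc_le A (X p.1) y p.2)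
  have hbad : ∀ p, ((C p).filter fun v => ¬ G p v).card ≤ Fintype.card (Ta s h pj q) := by
    intro p
    let P : (Ta s h pj q) → V → Prop := fun t v => match t with
      | .inl (j, i) => v = X j i
      | .inr (.inl r) => v = y r
      | .inr (.inr (l, e, j', ik)) => own e = some p.2 ∧
          lam l v (fx (X p.1) y e) = lam l (X j' ik.1) (y ⟨.inl ik.1, ik.2⟩)
    apply FNY_cover _ P
    · intro v hv
      rw [Finset.mem_filter] at hv
      have h2 := hv.2
      by_cases h3 : ∀ j i, v ≠ X j i
      · by_cases h4 : ∀ r, v ≠ y r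
        · have h5 : ¬ ∀ (l : Fin 2) e j' i' (k' : Fin (s - 2)), own e = some p.2 →
              lam l v (fx (X p.1) y e) ≠ lam l (X j' i') (y ⟨.inl i', k'⟩) := by
            intro h6
            exact h2 ⟨h3, h4, h6⟩
          push Not at h5
          obtain ⟨l, e, j', i', k', he, hl⟩ := h5
          exact ⟨.inr (.inr (l, e, j', ⟨i', k'⟩)), he, hl⟩
        · push Not at h4
          obtain ⟨r, hr⟩ := h4
          exact ⟨.inr (.inl r), hr⟩
      · push Not at h3
        obtain ⟨j, i, hji⟩ := h3
        exact ⟨.inl (j, i), hji⟩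
    · intro t v hv v' hv' hPv hPv'
      rw [Finset.mem_filter] at hv hv'
      rcases t with ⟨j, i⟩ | r | ⟨l, e, j', ik⟩
      · exact Eq.trans hPv (Eq.symm hPv')
      · exact Eq.trans hPv (Eq.symm hPv')
      · exact hdet l _ v v' (hCmem p v hv.1 e hPv.1) (hCmem p v' hv'.1 e hPv'.1)
          (hPv.2.trans hPv'.2.symm)
  let Y : Ti h pj q → Finset V := fun p => (C p).filter fun v => G p v
  have hYcard : ∀ p, Fintype.card (Tb s h pj) * Fintype.card (Ti h pj q) < (Y p).card := by
    intro p
    have h1 := Finset.card_filter_add_card_filter_not (s := C p) (fun v => G p v)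
    have h2 := hbad p
    have h3 := hCcard p
    have h4 : ((C p).filter fun v => G p v).card = (Y p).card := rfl
    omega
  let conf : Ti h pj q → Ti h pj q → V → V → Prop := fun p p' v v' => v = v' ∨ ∃ (l : Fin 2) (e e' : (cat s h pj).Ed),
    own e = some p.2 ∧ own e' = some p'.2 ∧ lam l v (fx (X p.1) y e) = lam l v' (fx (X p'.1) y e')
  let Y' : Ti h pj q → Finset (Ti h pj q × V) := fun p => (Y p).image fun v => (p, v)
  let r : Ti h pj q × V → Ti h pj q × V → Prop := fun a b => conf a.1 b.1 a.2 b.2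
  obtain ⟨f, hf1, hf2⟩ := hGR (Ti h pj q) (Ti h pj q × V) Y' r (Fintype.card (Tb s h pj)) (by
      rintro a b (h1 | ⟨l, e, e', he, he', hl⟩)
      · exact Or.inl h1.symm
      · exact Or.inr ⟨l, e', e, he', he, hl.symm⟩) (by
      intro p p' _ b hb
      let P : (Tb s h pj) → Ti h pj q × V → Prop := fun t a => match t with
        | .inl _ => a.2 = b.2
        | .inr (l, e, e') => own e = some p.2 ∧ lam l a.2 (fx (X p.1) y e) = lam l b.2 (fx (X b.1.1) y e')
      apply FNY_cover _ P
      · intro a ha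
        simp only [Finset.mem_filter] at ha
        obtain ⟨ha1, ha2⟩ := ha
        have ha3 : a.1 = p := by
          simp only [Y', Finset.mem_image] at ha1
          obtain ⟨v, _, rfl⟩ := ha1
          rfl
        rcases ha2 with h1 | ⟨l, e, e', he, he', hl⟩
        · exact ⟨.inl 0, h1⟩
        · rw [ha3] at he hl
          exact ⟨.inr (l, e, e'), he, hl⟩
      · intro t a ha a' ha' hPa hPa'
        simp only [Finset.mem_filter] at ha ha'
        have ha1 := ha.1
        have ha1' := ha'.1
        simp only [Y', Finset.mem_image] at ha1 ha1'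
        obtain ⟨v, hv, rfl⟩ := ha1
        obtain ⟨v', hv', rfl⟩ := ha1'
        have hvC : v ∈ C p := (Finset.mem_filter.1 hv).1
        have hvC' : v' ∈ C p := (Finset.mem_filter.1 hv').1
        rcases t with t | ⟨l, e, e'⟩
        · have h1 : v = b.2 := hPa
          have h2 : v' = b.2 := hPa'
          rw [h1, h2]
        · have h3 : v = v' := hdet l _ v v' (hCmem p v hvC e hPa.1) (hCmem p v' hvC' e hPa'.1)
            (Eq.trans hPa.2 (Eq.symm hPa'.2))
          rw [h3]) (by
      intro p
      have h1 : (Y' p).card = (Y p).card := by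
        apply Finset.card_image_of_injective
        intro v v' hvv
        exact (Prod.mk.inj hvv).2
      rw [h1]
      exact hYcard p)
  have hfa : ∀ p, (f p).1 = p ∧ (f p).2 ∈ Y p := by
    intro p
    have h1 := hf1 p
    simp only [Y', Finset.mem_image] at h1
    obtain ⟨v, hv, hvf⟩ := h1
    rw [← hvf]
    exact ⟨rfl, hv⟩
  let g : Ti h pj q → V := fun p => (f p).2
  have hgC : ∀ p, g p ∈ C p := fun p => (Finset.mem_filter.1 (hfa p).2).1
  have hgG : ∀ p, G p (g p) := fun p => (Finset.mem_filter.1 (hfa p).2).2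
  have hgc : ∀ p p', p ≠ p' → ¬ conf p p' (g p) (g p') := by
    intro p p' hpp
    have h1 := hf2 p p' hpp
    simp only [r] at h1
    rw [(hfa p).1, (hfa p').1] at h1
    exact h1
  let z : Fin q → CI h pj → V := fun j i => match i with
    | .inl i => X j i
    | .inr u => g (j, u)
  -- edges owned by a connector or child
  have hedge : ∀ j (e : (cat s h pj).Ed) u, own e = some u → ∀ l,
      (cat s h pj).col lam l (z j) y e = lam l (g (j, u)) (fx (X j) y e) := by
    intro j e u he l
    have hA := hCmem (j, u) _ (hgC (j, u)) e he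
    rcases own_some e u he with ⟨j', h1, hu, rfl⟩ | ⟨j', h1, hu, rfl⟩ | ⟨c, h1, hu, rfl⟩ | ⟨k, rfl⟩
    · subst hu
      exact hPr.csymm l _ _ (hPr.symm _ _ hA)
    · subst hu
      rfl
    · subst hu
      rfl
    · rfl
  refine ⟨z, y, ?_, ?_, hy, ?_, ?_⟩
  · intro j
    constructor
    · intro i i' hp
      rcases i with i | u
      · obtain ⟨j', rfl, rfl⟩ := par_hub hp
        have hA := hCmem (j, .inl j') _ (hgC (j, .inl j'))
          (.inl ⟨(.inl j'.succ, .inr (.inl j')), hp⟩) rfl
        exact hPr.symm _ _ hA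
      · rcases u with j' | c
        · have h3 := par_con hp
          subst h3
          exact hCmem (j, .inl j') _ (hgC (j, .inl j'))
            (.inl ⟨(.inr (.inl j'), .inl j'.castSucc), hp⟩) rfl
        · have h3 := par_chi hp
          subst h3
          exact hCmem (j, .inr c) _ (hgC (j, .inr c))
            (.inl ⟨(.inr (.inr c), .inl c.1), hp⟩) rfl
    · rintro ⟨i, k⟩
      rcases i with i | u
      · exact hAX j i k
      · exact hCmem (j, u) _ (hgC (j, u)) (.inr ⟨.inr u, k⟩) rfl
  · intro j i j' i' hz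
    rcases i with i | u <;> rcases i' with i' | u'
    · obtain ⟨h1, h2⟩ := hXi j i j' i' hz
      exact ⟨h1, by rw [h2]⟩
    · exact absurd (Eq.symm hz) ((hgG (j', u')).1 j i)
    · exact absurd hz ((hgG (j, u)).1 j' i')
    · by_cases hp : ((j, u) : Ti h pj q) = (j', u')
      · exact ⟨(Prod.mk.inj hp).1, by rw [(Prod.mk.inj hp).2]⟩
      · exact absurd (Or.inl hz) (hgc _ _ hp)
  · intro j i r'
    rcases i with i | u
    · exact hXy j i r'
    · exact (hgG (j, u)).2.1 r'
  · intro l j e j' e' hcol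
    rcases ho : own e with _ | u <;> rcases ho' : own e' with _ | u'
    · obtain ⟨i, k, rfl⟩ := own_none e ho
      obtain ⟨i', k', rfl⟩ := own_none e' ho'
      obtain ⟨h1, h2, h3⟩ := hXc l j i k j' i' k' hcol
      subst h2
      subst h3
      exact ⟨h1, rfl⟩
    · obtain ⟨i, k, rfl⟩ := own_none e ho
      rw [hedge j' e' u' ho' l] at hcol
      exact absurd hcol.symm ((hgG (j', u')).2.2 l e' j i k ho')
    · obtain ⟨i', k', rfl⟩ := own_none e' ho'
      rw [hedge j e u ho l] at hcol
      exact absurd hcol ((hgG (j, u)).2.2 l e j' i' k' ho)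
    · rw [hedge j e u ho l, hedge j' e' u' ho' l] at hcol
      by_cases hp : ((j, u) : Ti h pj q) = (j', u')
      · obtain ⟨h1, h2⟩ := Prod.mk.inj hp
        subst h1
        subst h2
        refine ⟨rfl, ?_⟩
        have hA := hCmem (j, u) _ (hgC (j, u)) e ho
        have hA' := hCmem (j, u) _ (hgC (j, u)) e' ho'
        have h3 := hPr.prop l _ _ _ hA hA' hcol
        exact fx_inj (X j) y (fun a b hab => (hXi j a j b hab).2) hy (hXy j) e e' u ho ho' h3
      · exact absurd (Or.inr ⟨l, e, e', ho, ho', hcol⟩) (hgc _ _ hp)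

theorem FNY : FNY_stmt := FNY_aux Pool.Agent.KS.GR

end

end Pool.Agent.helper42.IV
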